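import Pool.Agent.Lib.MP_952e97_co.Main

set_option autoImplicit false

/-!
Popular differences for three point matrix patterns in the integer grid: the case
`rank M₁ = 2`, `rank M₂ = 1`, `rank (M₂ - M₁) = 2`.

Choosing `k₀ ≠ 0` in the kernel of `M₂` and `k₁` outside it, the differences
`n = s k₀ + t k₁` give the patterns `x, x + s u + t v, x + t w` with `u = M₁ k₀`, `v = M₁ k₁`,
`w = M₂ k₁`. These are handled by a regularity argument on `(ZMod M)²` (finite Fourier analysis,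
energy pigeonholing and a Bohr type set of differences), see `Pool.Agent.Lib.MP_952e97_co.*`.
-/

namespace Pool.Agent.Results.MP_952e97_co.RankTwoOneTwo

open Finset

/-- The grid `{1, …, N}²` inside `ℤ²`. -/
noncomputable def grid (N : ℕ) : Finset (Fin 2 → ℤ) := Fintype.piFinset fun _ => Finset.Icc (1 : ℤ) (N : ℤ)

/-- The number of `x ∈ A` with `x + M₁ n ∈ A` and `x + M₂ n ∈ A`. -/
def copies (M₁ M₂ : Matrix (Fin 2) (Fin 2) ℤ) (A : Finset (Fin 2 → ℤ)) (n : Fin 2 → ℤ) : ℕ :=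
  #{x ∈ A | x + M₁.mulVec n ∈ A ∧ x + M₂.mulVec n ∈ A}

/-- The rank over `ℚ` of an integer matrix. -/
noncomputable def rankQ (M : Matrix (Fin 2) (Fin 2) ℤ) : ℕ := (M.map (Int.cast : ℤ → ℚ)).rank

/-- The pair `(M₁, M₂)` has `α³` popular differences. -/
def HasPopularDifferences (M₁ M₂ : Matrix (Fin 2) (Fin 2) ℤ) : Prop :=
  ∀ α ε : ℝ, 0 < α → 0 < ε → ∃ N₀ : ℕ, ∀ N : ℕ, N₀ ≤ N → ∀ A : Finset (Fin 2 → ℤ),
    A ⊆ grid N → α * (N : ℝ) ^ 2 ≤ #A →
      ∃ n : Fin 2 → ℤ, M₁.mulVec n ≠ 0 ∧ M₂.mulVec n ≠ 0 ∧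
        (α ^ 3 - ε) * (N : ℝ) ^ 2 < copies M₁ M₂ A n

lemma det_map (M : Matrix (Fin 2) (Fin 2) ℤ) :
    (M.map (Int.cast : ℤ → ℚ)).det = (M.det : ℚ) := by
  rw [Matrix.det_fin_two, Matrix.det_fin_two]
  simp

lemma det_ne_zero_of_rank {M : Matrix (Fin 2) (Fin 2) ℤ} (h : rankQ M = 2) : M.det ≠ 0 := by
  intro hdet
  have h1 : (M.map (Int.cast : ℤ → ℚ)).det = 0 := by rw [det_map, hdet]; simp
  obtain ⟨v, hv0, hv⟩ := Matrix.exists_mulVec_eq_zero_iff.mpr h1
  unfold rankQ at h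
  rw [Matrix.rank] at h
  have h2 := LinearMap.finrank_range_add_finrank_ker (M.map (Int.cast : ℤ → ℚ)).mulVecLin
  rw [h] at h2
  have h3 : Module.finrank ℚ (Fin 2 → ℚ) = 2 := by simp
  rw [h3] at h2
  have h4 : Module.finrank ℚ (LinearMap.ker (M.map (Int.cast : ℤ → ℚ)).mulVecLin) = 0 := by omega
  rw [Submodule.finrank_eq_zero] at h4
  have h5 : v ∈ LinearMap.ker (M.map (Int.cast : ℤ → ℚ)).mulVecLin := by
    rw [LinearMap.mem_ker, Matrix.mulVecLin_apply]
    exact hv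
  rw [h4, Submodule.mem_bot] at h5
  exact hv0 h5

lemma det_eq_zero_of_rank {M : Matrix (Fin 2) (Fin 2) ℤ} (h : rankQ M = 1) : M.det = 0 := by
  by_contra hdet
  have h1 : (M.map (Int.cast : ℤ → ℚ)).det ≠ 0 := by
    rw [det_map]
    exact_mod_cast hdet
  have h2 : IsUnit (M.map (Int.cast : ℤ → ℚ)) := by
    rw [Matrix.isUnit_iff_isUnit_det]
    exact h1.isUnit
  have h3 := Matrix.rank_of_isUnit _ h2
  unfold rankQ at h
  rw [h] at h3
  simp at h3

lemma ne_zero_of_rank {M : Matrix (Fin 2) (Fin 2) ℤ} (h : rankQ M = 1) : M ≠ 0 := by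
  intro h0
  unfold rankQ at h
  rw [h0] at h
  simp at h

/-- The pair of coordinates of a vector. -/
def toPair (x : Fin 2 → ℤ) : ℤ × ℤ := (x 0, x 1)

lemma toPair_injective : Function.Injective toPair := by
  intro x y h
  have h1 := congrArg Prod.fst h
  have h2 := congrArg Prod.snd h
  simp only [toPair] at h1 h2
  ext i
  fin_cases i
  · exact h1
  · exact h2

lemma toPair_add (x y : Fin 2 → ℤ) : toPair (x + y) = toPair x + toPair y := rfl

lemma det2_mulVec (M : Matrix (Fin 2) (Fin 2) ℤ) (a b : Fin 2 → ℤ) :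
    Pool.Agent.MP_952e97_co.det2 (toPair (M.mulVec a)) (toPair (M.mulVec b))
      = M.det * Pool.Agent.MP_952e97_co.det2 (toPair a) (toPair b) := by
  unfold Pool.Agent.MP_952e97_co.det2 toPair
  simp only [Matrix.mulVec, dotProduct, Fin.sum_univ_two, Matrix.det_fin_two]
  ring

/-- **Main theorem.** Every pair of integer `2 × 2` matrices with `rank M₁ = 2`, `rank M₂ = 1` and
`rank (M₂ - M₁) = 2` has `α³` popular differences. -/
theorem result (M₁ M₂ : Matrix (Fin 2) (Fin 2) ℤ) (h₁ : rankQ M₁ = 2) (h₂ : rankQ M₂ = 1)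
    (h₁₂ : rankQ (M₂ - M₁) = 2) : HasPopularDifferences M₁ M₂ := by
  classical
  have hd₁ := det_ne_zero_of_rank h₁
  have hd₁₂ := det_ne_zero_of_rank h₁₂
  have hd₂ := det_eq_zero_of_rank h₂
  have hM₂ := ne_zero_of_rank h₂
  obtain ⟨k₀, hk₀, hk₀M⟩ := Matrix.exists_mulVec_eq_zero_iff.mpr hd₂
  obtain ⟨k₁, hk₁⟩ : ∃ k₁, M₂.mulVec k₁ ≠ 0 := by
    by_contra hcon
    push Not at hcon
    apply hM₂
    ext i j
    have := congrFun (hcon (Pi.single j 1)) i
    simpa using this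
  -- `k₀` and `k₁` are independent
  have hk : Pool.Agent.MP_952e97_co.det2 (toPair k₀) (toPair k₁) ≠ 0 := by
    intro h0
    unfold Pool.Agent.MP_952e97_co.det2 toPair at h0
    simp only at h0
    apply hk₁
    have hcol : ∀ i : Fin 2, k₀ i • k₁ = k₁ i • k₀ := by
      intro i
      ext j
      fin_cases i <;> fin_cases j <;> simp <;> linarith
    have hne : ∃ i, k₀ i ≠ 0 := by
      by_contra hcon
      push Not at hcon
      exact hk₀ (funext hcon)
    obtain ⟨i, hi⟩ := hne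
    have h1 : k₀ i • M₂.mulVec k₁ = 0 := by
      rw [← Matrix.mulVec_smul, hcol i, Matrix.mulVec_smul, hk₀M, smul_zero]
    exact (smul_eq_zero.mp h1).resolve_left hi
  set u := toPair (M₁.mulVec k₀) with hu
  set v := toPair (M₁.mulVec k₁) with hv
  set w := toPair (M₂.mulVec k₁) with hw
  have hD₁ : Pool.Agent.MP_952e97_co.det2 u v ≠ 0 := by
    rw [hu, hv, det2_mulVec]
    exact mul_ne_zero hd₁ hk
  have hD₂ : Pool.Agent.MP_952e97_co.det2 u (w - v) ≠ 0 := by
    have h1 := det2_mulVec (M₂ - M₁) k₀ k₁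
    have h2 : toPair ((M₂ - M₁).mulVec k₀) = -u := by
      rw [Matrix.sub_mulVec, hk₀M, zero_sub]
      rfl
    have h3 : toPair ((M₂ - M₁).mulVec k₁) = w - v := by
      rw [Matrix.sub_mulVec]
      rfl
    rw [h2, h3] at h1
    have h4 : Pool.Agent.MP_952e97_co.det2 (-u) (w - v)
        = -Pool.Agent.MP_952e97_co.det2 u (w - v) := by
      unfold Pool.Agent.MP_952e97_co.det2
      simp only [Prod.fst_neg, Prod.snd_neg]
      ring
    rw [h4] at h1
    intro h5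
    rw [h5, neg_zero] at h1
    exact mul_ne_zero hd₁₂ hk h1.symm
  intro α ε hα hε
  obtain ⟨N₀, hN₀⟩ := Pool.Agent.MP_952e97_co.core_pattern u v w hD₁ hD₂ α ε hα hε
  refine ⟨N₀, fun N hN A hA hcard => ?_⟩
  have hA' : ∀ a ∈ A.image toPair, (1 ≤ a.1 ∧ a.1 ≤ N) ∧ (1 ≤ a.2 ∧ a.2 ≤ N) := by
    intro a ha
    obtain ⟨x, hx, rfl⟩ := Finset.mem_image.mp ha
    have h1 := Fintype.mem_piFinset.mp (hA hx)
    exact ⟨Finset.mem_Icc.mp (h1 0), Finset.mem_Icc.mp (h1 1)⟩
  have hcard' : α * (N : ℝ) ^ 2 ≤ #(A.image toPair) := by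
    rw [Finset.card_image_of_injective _ toPair_injective]
    exact hcard
  obtain ⟨j, k, hk0, hlt⟩ := hN₀ N hN (A.image toPair) hA' hcard'
  have hM₂n : M₂.mulVec (j • k₀ + k • k₁) = k • M₂.mulVec k₁ := by
    rw [Matrix.mulVec_add, Matrix.mulVec_smul, Matrix.mulVec_smul, hk₀M, smul_zero, zero_add]
  have hM₁n : M₁.mulVec (j • k₀ + k • k₁) = j • M₁.mulVec k₀ + k • M₁.mulVec k₁ := by
    rw [Matrix.mulVec_add, Matrix.mulVec_smul, Matrix.mulVec_smul]
  have hne₂ : M₂.mulVec (j • k₀ + k • k₁) ≠ 0 := by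
    rw [hM₂n]
    exact smul_ne_zero hk0 hk₁
  have hn0 : j • k₀ + k • k₁ ≠ 0 := by
    intro h0
    rw [h0, Matrix.mulVec_zero] at hne₂
    exact hne₂ rfl
  refine ⟨j • k₀ + k • k₁, ?_, hne₂, ?_⟩
  · intro h0
    exact hd₁ (Matrix.exists_mulVec_eq_zero_iff.mp ⟨_, hn0, h0⟩)
  · have hcopies : copies M₁ M₂ A (j • k₀ + k • k₁)
        = #{a ∈ A.image toPair | a + (j * u.1 + k * v.1, j * u.2 + k * v.2) ∈ A.image toPair ∧
          a + (k * w.1, k * w.2) ∈ A.image toPair} := by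
      unfold copies
      rw [← Finset.card_image_of_injective _ toPair_injective]
      congr 1
      have hmem : ∀ x : Fin 2 → ℤ, toPair x ∈ A.image toPair ↔ x ∈ A := fun x =>
        ⟨fun h => by
          obtain ⟨y, hy, hyx⟩ := Finset.mem_image.mp h
          rwa [← toPair_injective hyx], fun h => Finset.mem_image_of_mem _ h⟩
      have e1 : ∀ x : Fin 2 → ℤ, toPair x + (j * u.1 + k * v.1, j * u.2 + k * v.2)
          = toPair (x + M₁.mulVec (j • k₀ + k • k₁)) := by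
        intro x
        rw [hM₁n, toPair_add]
        rfl
      have e2 : ∀ x : Fin 2 → ℤ, toPair x + (k * w.1, k * w.2)
          = toPair (x + M₂.mulVec (j • k₀ + k • k₁)) := by
        intro x
        rw [hM₂n, toPair_add]
        rfl
      ext p
      simp only [Finset.mem_image, Finset.mem_filter]
      constructor
      · rintro ⟨x, ⟨hx, hx1, hx2⟩, rfl⟩
        refine ⟨⟨x, hx, rfl⟩, ?_, ?_⟩
        · rw [e1]
          exact ⟨_, hx1, rfl⟩
        · rw [e2]
          exact ⟨_, hx2, rfl⟩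
      · rintro ⟨⟨x, hx, rfl⟩, hx1, hx2⟩
        rw [e1] at hx1
        rw [e2] at hx2
        refine ⟨x, ⟨hx, ?_, ?_⟩, rfl⟩
        · exact (hmem _).mp (Finset.mem_image.mpr hx1)
        · exact (hmem _).mp (Finset.mem_image.mpr hx2)
    rw [hcopies]
    exact hlt

end Pool.Agent.Results.MP_952e97_co.RankTwoOneTwo
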